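import Pool.Agent.Lib.MP_b5021c_nt.IfaceBE
import Pool.Agent.Lib.MP_b5021c_nt.B.H71.I1c
import Pool.Agent.Lib.MP_b5021c_nt.B.H57.Dus

/-!
# Pure beta, row BE_SF: the small factors of the closing `x_i = 1`
-/

set_option autoImplicit false
set_option linter.unusedSectionVars false

namespace Pool.Agent.B5.BE.H24

open scoped LaurentPolynomial
open Polynomial
open Pool.Agent.B5.H71 (supp_cl cl_prod cl_res cst_mul_coeff cst_mul)
open Pool.Agent.B5.H57.Dus (supp_mul uniq supp_prod_ker)

theorem sum_ind {ι : Type} [DecidableEq ι] (A : Finset ι) (g : ι → ℤ) (k : ι) (h1 : g k = 1)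
    (h0 : ∀ i, i ≠ k → g i = 0) : ∑ i ∈ A, g i = if k ∈ A then 1 else 0 := by
  have h2 : ∀ i, g i = if i = k then 1 else 0 := by
    intro i
    by_cases h : i = k
    · rw [h, h1, if_pos rfl]
    · rw [h0 i h, if_neg h]
  rw [Finset.sum_congr rfl fun i _ => h2 i, Finset.sum_ite_eq']

section

variable {P : Type} [Fintype P] [DecidableEq P] {L : Type} [AddCommGroup L] [Module.Free ℤ L]
  [Module.Finite ℤ L] {phi : L →+ (P → ℤ)} {D : AO ℤ L} {q f : ℤ[X]} {a : ℝ} {j s : ℕ}
  {S : Fin 3 → L} {es : Fin 3 → (RO ℤ)ˣ} {T : Fin s → L} {lam : Fin s → (RO ℤ)ˣ}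

theorem phi_sST (phi : L →+ (P → ℤ)) (S : Fin 3 → L) (T : Fin s → L) (A : Finset (Fin 3))
    (B : Finset (Fin s)) (p : P) :
    phi (sST S T A B) p = ∑ i ∈ A, phi (S i) p + ∑ i ∈ B, phi (T i) p := by
  unfold sST
  rw [map_add, map_sum, map_sum, Pi.add_apply, Finset.sum_apply, Finset.sum_apply]

theorem phS (be : Be phi D q f a j s S es T lam) {k : Fin 3} {p : P} (hk : phi (S k) p = 1)
    (A : Finset (Fin 3)) (B : Finset (Fin s)) :
    phi (sST S T A B) p = if k ∈ A then 1 else 0 := by
  rw [phi_sST, sum_ind A (fun i => phi (S i) p) k hk, Finset.sum_eq_zero, add_zero]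
  · intro i _
    rcases be.dST k i p with h | h
    · rw [hk] at h; exact absurd h one_ne_zero
    · exact h
  · intro i hi
    rcases be.dSS i k hi p with h | h
    · exact h
    · rw [hk] at h; exact absurd h one_ne_zero

theorem phT (be : Be phi D q f a j s S es T lam) {k : Fin s} {p : P} (hk : phi (T k) p = 1)
    (A : Finset (Fin 3)) (B : Finset (Fin s)) :
    phi (sST S T A B) p = if k ∈ B then 1 else 0 := by
  rw [phi_sST, sum_ind B (fun i => phi (T i) p) k hk, Finset.sum_eq_zero, zero_add]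
  · intro i _
    rcases be.dST i k p with h | h
    · exact h
    · rw [hk] at h; exact absurd h one_ne_zero
  · intro i hi
    rcases be.dTT i k hi p with h | h
    · exact h
    · rw [hk] at h; exact absurd h one_ne_zero

theorem binS (hD : DD phi D) (be : Be phi D q f a j s S es T lam) (k : Fin 3) : Bin phi (S k) :=
  hD.bin _ (be.rS k).1

theorem binT (hD : DD phi D) (be : Be phi D q f a j s S es T lam) (k : Fin s) : Bin phi (T k) :=
  hD.bin _ (be.rT k).1

theorem port (hD : DD phi D) {R : L} (hR : Bin phi R) (h0 : R ≠ 0) : ∃ p, phi R p = 1 := by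
  by_contra hcon
  push Not at hcon
  apply h0
  apply hD.inj
  rw [map_zero]
  funext p
  exact (hR p).resolve_right (hcon p)

theorem ph_cases (hD : DD phi D) (be : Be phi D q f a j s S es T lam) (A : Finset (Fin 3))
    (B : Finset (Fin s)) (p : P) : phi (sST S T A B) p = 0 ∨ (phi (sST S T A B) p = 1 ∧
      ((∃ k ∈ A, phi (S k) p = 1) ∨ ∃ k ∈ B, phi (T k) p = 1)) := by
  by_cases h1 : ∃ k, phi (S k) p = 1
  · obtain ⟨k, hk⟩ := h1
    rw [phS be hk]
    by_cases h : k ∈ A
    · rw [if_pos h]; exact Or.inr ⟨rfl, Or.inl ⟨k, h, hk⟩⟩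
    · rw [if_neg h]; exact Or.inl rfl
  by_cases h2 : ∃ k, phi (T k) p = 1
  · obtain ⟨k, hk⟩ := h2
    rw [phT be hk]
    by_cases h : k ∈ B
    · rw [if_pos h]; exact Or.inr ⟨rfl, Or.inr ⟨k, h, hk⟩⟩
    · rw [if_neg h]; exact Or.inl rfl
  left
  push Not at h1 h2
  rw [phi_sST, Finset.sum_eq_zero, Finset.sum_eq_zero, add_zero]
  · intro i _; exact (binT hD be i p).resolve_right (h2 i)
  · intro i _; exact (binS hD be i p).resolve_right (h1 i)

theorem bin_sST (hD : DD phi D) (be : Be phi D q f a j s S es T lam) (A : Finset (Fin 3))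
    (B : Finset (Fin s)) : Bin phi (sST S T A B) := by
  intro p
  rcases ph_cases hD be A B p with h | h
  · exact Or.inl h
  · exact Or.inr h.1

theorem dis (hD : DD phi D) (be : Be phi D q f a j s S es T lam) {i : Fin s}
    (A : Finset (Fin 3)) {B : Finset (Fin s)} (hi : i ∉ B) (p : P) :
    phi (sST S T A B) p = 0 ∨ phi (T i) p = 0 := by
  rcases binT hD be i p with h | h
  · exact Or.inr h
  · left; rw [phT be h, if_neg hi]

theorem zf_ne (be : Be phi D q f a j s S es T lam) : toLaurent (X * f) ≠ 0 := by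
  intro h
  have h1 : (X * f : ℤ[X]) = 0 := Polynomial.toLaurent_injective (by rw [h, map_zero])
  have h2 : f ≠ 0 := by
    rintro rfl
    have := be.f0
    simp at this
  exact (mul_ne_zero Polynomial.X_ne_zero h2) h1

theorem prod_ne (A : Finset (Fin 3)) (B : Finset (Fin s)) (es : Fin 3 → (RO ℤ)ˣ)
    (lam : Fin s → (RO ℤ)ˣ) :
    (∏ i ∈ A, (ld (es i) 1 : RO ℤ)) * (∏ i ∈ B, (lam i : RO ℤ)) ≠ 0 :=
  mul_ne_zero (Finset.prod_ne_zero_iff.2 fun i _ => Units.ne_zero _)
    (Finset.prod_ne_zero_iff.2 fun i _ => Units.ne_zero _)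

/-- The coefficients which contain some but not all of the `S k`. -/
theorem nz (be : Be phi D q f a j s S es T lam) {A : Finset (Fin 3)} (B : Finset (Fin s))
    (h0 : A ≠ ∅) (h1 : A ≠ Finset.univ) : D.coeff (sST S T A B) ≠ 0 := by
  intro h
  have h2 := be.psi A B h0 h1
  rw [h, mul_zero] at h2
  have h3 := zf_ne be
  have h4 : ((-1 : RO ℤ) ^ (A.card + B.card)) ≠ 0 := pow_ne_zero _ (by simp)
  exact (neg_ne_zero.2 (mul_ne_zero h4 h3)) h2.symm

theorem flip (be : Be phi D q f a j s S es T lam) {A : Finset (Fin 3)} {B : Finset (Fin s)}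
    (h0 : A ≠ ∅) (h1 : A ≠ Finset.univ) {k : Fin s} (hk : k ∉ B) :
    D.coeff (sST S T A B) + (lam k : RO ℤ) * D.coeff (sST S T A (insert k B)) = 0 := by
  have h2 := be.psi A B h0 h1
  have h3 := be.psi A (insert k B) h0 h1
  rw [Finset.prod_insert hk, Finset.card_insert_of_notMem hk, ← add_assoc, pow_succ] at h3
  have h4 := prod_ne A B es lam
  apply (mul_eq_zero.1 (_ : ((∏ i ∈ A, (ld (es i) 1 : RO ℤ)) * (∏ i ∈ B, (lam i : RO ℤ))) *
    (D.coeff (sST S T A B) + (lam k : RO ℤ) * D.coeff (sST S T A (insert k B))) = 0)).resolve_left h4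
  linear_combination h2 + h3

theorem sST_insert (A : Finset (Fin 3)) {B : Finset (Fin s)} {k : Fin s} (hk : k ∉ B) :
    sST S T A B + T k = sST S T A (insert k B) := by
  unfold sST
  rw [Finset.sum_insert hk]
  abel

theorem sST_empty (k : Fin s) : sST S T ∅ {k} = T k := by
  unfold sST
  rw [Finset.sum_empty, Finset.sum_singleton, zero_add]

theorem sST_zero : sST S T ∅ ∅ = 0 := by
  unfold sST
  rw [Finset.sum_empty, Finset.sum_empty, zero_add]

theorem sST_one (k : Fin 3) : sST S T {k} ∅ = S k := by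
  unfold sST
  rw [Finset.sum_empty, Finset.sum_singleton, add_zero]

end

/-- (BE_SF) -/
theorem besf (hQ : QstS) (hM : MinS) (hV : VcoS) (hW : WWfS) : BeSfS := by
  classical
  intro P L _ _ _ _ _ phi D q f a j s S es T lam i i0 h c n G l b jj e be fd sp
  have hD := fd.cc.dd
  have hi0 : phi (T i) i0 = 1 := h
  obtain ⟨-, -, v3, -, v5⟩ := hV ℤ P L phi D (T i) (lam i) hD.inj hD.bin (binT hD be i) (be.rT i).2.1
  set V := cl (co phi i0) (T i) h (lam i) D with hVdef
  -- coefficients of the closing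
  have hk0 : ∀ (A : Finset (Fin 3)) (B : Finset (Fin s)), i ∉ B → co phi i0 (sST S T A B) = 0 := by
    intro A B hB
    change phi (sST S T A B) i0 = 0
    rw [phT be hi0, if_neg hB]
  have hVc : ∀ (x : Ker (co phi i0)) (A : Finset (Fin 3)) (B : Finset (Fin s)), i ∉ B →
      (x : L) = sST S T A B → V.coeff x = D.coeff (sST S T A B) +
        (lam i : RO ℤ) * D.coeff (sST S T A (insert i B)) := by
    intro x A B hB hx
    rw [v5 i0 h x, hx, v3 _ (dis hD be A hB), sST_insert A hB]
  -- support of the closing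
  have hVs : ∀ x ∈ supp V, ∃ A B, i ∉ B ∧ (x : L) = sST S T A B ∧ (A = ∅ ∨ A = Finset.univ) := by
    intro x hx
    obtain ⟨y, hy, hyx⟩ := supp_cl _ _ _ _ _ x hx
    obtain ⟨A, B, rfl⟩ := be.sup y hy
    have h1 : (x : L) = sST S T A (B.erase i) := by
      rw [← hyx, prj_coe]
      have h2 : co phi i0 (sST S T A B) = if i ∈ B then 1 else 0 := phT be hi0 A B
      rw [h2]
      by_cases hiB : i ∈ B
      · rw [if_pos hiB, one_smul, ← Finset.insert_erase hiB, ← sST_insert A (Finset.notMem_erase i B),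
          Finset.erase_insert_eq_erase, Finset.erase_eq_of_notMem (Finset.notMem_erase i B)]
        abel
      · rw [if_neg hiB, zero_smul, sub_zero, Finset.erase_eq_of_notMem hiB]
    refine ⟨A, B.erase i, Finset.notMem_erase i B, h1, ?_⟩
    by_contra hcon
    rw [not_or] at hcon
    apply hx
    rw [hVc x A (B.erase i) (Finset.notMem_erase i B) h1]
    exact flip be hcon.1 hcon.2 (Finset.notMem_erase i B)
  -- the other factors
  set O := ∏ i' ∈ Finset.univ.erase l, G i' with hO
  set u := (G l).coeff 0 with hu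
  have hu0 : u ≠ 0 := sp.u0.ne_zero
  have hVO : V = cst c * (cst u * ((1 - AddMonoidAlgebra.single b ((e⁻¹ : (RO ℤ)ˣ) : RO ℤ)) * O)) := by
    rw [hVdef, fd.eq, ← Finset.mul_prod_erase Finset.univ G (Finset.mem_univ l)]
    conv_lhs => rw [sp.eq]
    rw [mul_assoc (cst _)]
  have hVO' : V = cst c * G l * O := by
    rw [hVdef, fd.eq, ← Finset.mul_prod_erase Finset.univ G (Finset.mem_univ l), mul_assoc]
  have hcoef : ∀ x, V.coeff x = c * (u * (O.coeff x - ((e⁻¹ : (RO ℤ)ˣ) : RO ℤ) * O.coeff (-b + x))) := by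
    intro x
    rw [hVO, cst_mul_coeff, cst_mul_coeff, sub_mul, one_mul, AddMonoidAlgebra.coeff_sub,
      Finsupp.sub_apply, AddMonoidAlgebra.coeff_single_mul_apply]
  have hOjj : ∀ x ∈ supp O, phi (x : L) jj = 0 := by
    intro x hx
    exact supp_prod_ker (Finset.univ.erase l) G (co (phK phi (co phi i0)) jj)
      (fun i' hi' y hy => sp.other i' (Finset.ne_of_mem_erase hi') y hy) x hx
  have hbj : phi (b : L) jj = 1 := sp.bj
  have hOz : ∀ x : Ker (co phi i0), phi (x : L) jj ≠ 0 → O.coeff x = 0 := by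
    intro x hx
    by_contra h1
    exact hx (hOjj x h1)
  have hneg : ∀ x : Ker (co phi i0), phi (x : L) jj = 0 → O.coeff (-b + x) = 0 := by
    intro x hx
    apply hOz
    have : phi ((-b + x : Ker (co phi i0)) : L) jj = - phi (b : L) jj + phi (x : L) jj := by
      rw [Submodule.coe_add, Submodule.coe_neg, map_add, map_neg]; rfl
    rw [this, hbj, hx]
    norm_num
  have hV0 : V.coeff 0 ≠ 0 := by
    have h1 := hVc 0 ∅ ∅ (Finset.notMem_empty i) (by rw [sST_zero]; rfl)
    rw [insert_empty_eq, sST_zero, sST_empty] at h1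
    rw [h1]
    exact fd.cc.v0
  have hO0 : O.coeff 0 ≠ 0 := by
    intro h1
    apply hV0
    rw [hcoef 0, h1, hneg 0 (by rw [Submodule.coe_zero, map_zero]; rfl)]
    ring
  have hbV : b ∈ supp V := by
    intro h1
    rw [hcoef b, hOz b (by rw [hbj]; exact one_ne_zero), neg_add_cancel, zero_sub] at h1
    have := fd.c0
    have h2 : ((e⁻¹ : (RO ℤ)ˣ) : RO ℤ) ≠ 0 := Units.ne_zero _
    exact (mul_ne_zero this (mul_ne_zero hu0 (neg_ne_zero.2 (mul_ne_zero h2 hO0)))) h1
  obtain ⟨A, B, hiB, hbAB, hA⟩ := hVs b hbV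
  have hcG0 : (cst c * G l).coeff 0 ≠ 0 := by
    rw [cst_mul_coeff]; exact mul_ne_zero fd.c0 hu0
  have hO1 : O ≠ 0 := by
    rintro h1
    apply hO0; rw [h1]; rfl
  have hcGb : b ∈ supp (cst c * G l) := by
    intro h1
    rw [cst_mul_coeff, sp.eq, cst_mul_coeff, AddMonoidAlgebra.coeff_sub, Finsupp.sub_apply,
      AddMonoidAlgebra.coeff_single, Finsupp.single_eq_same, AddMonoidAlgebra.one_def,
      AddMonoidAlgebra.coeff_single, Finsupp.single_eq_of_ne, zero_sub] at h1
    · have h2 : ((e⁻¹ : (RO ℤ)ˣ) : RO ℤ) ≠ 0 := Units.ne_zero _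
      exact (mul_ne_zero fd.c0 (mul_ne_zero hu0 (neg_ne_zero.2 h2))) h1
    · intro h2
      rw [h2, Submodule.coe_zero, map_zero] at hbj
      exact zero_ne_one hbj
  -- O kills every functional killed by V and b
  have hOk : ∀ k : Ker (co phi i0) →+ ℤ, (∀ x ∈ supp V, k x = 0) → ∀ x ∈ supp O, k x = 0 := by
    intro k hk x hx
    have hVO2 : O * (cst c * G l) = V := by rw [hVO', mul_comm]
    have h1 := hM ℤ _ O (cst c * G l) hO1 hcG0 k 0 (by
      rw [hVO2]; intro y hy; rw [hk y hy]) x hx
    have h2 := hM ℤ _ O (cst c * G l) hO1 hcG0 (-k) 0 (by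
      rw [hVO2]; intro y hy; rw [AddMonoidHom.neg_apply, hk y hy, neg_zero]) x hx
    rw [AddMonoidHom.neg_apply] at h2
    omega
  -- Qst
  have hj1 : co (phK phi (co phi i0)) jj b = 1 := hbj
  set K' := Ker (co (phK phi (co phi i0)) jj) with hK'
  obtain ⟨r, hr0, hXr, -, -, hrp⟩ := hQ ℤ P L phi D (T i) i0 (lam i) h c n G fd l b jj e sp hj1
  set O2 := ∏ i' ∈ Finset.univ.erase l, res K' (G i') with hO2
  have hO2c : ∀ x : K', O2.coeff x = O.coeff (x : Ker (co phi i0)) := by
    intro x
    rw [hO2, ← cl_prod l b jj e sp hj1, cl_res _ _ _ _ _ (fun y hy => hOjj y hy), res_coeff]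
  have hO20 : O2.coeff 0 ≠ 0 := by rw [hO2c]; exact hO0
  have hO2s : ∀ x ∈ supp O2, (x : Ker (co phi i0)) ∈ supp O := by
    intro x hx h1
    exact hx ((hO2c x).trans h1)
  -- coefficients of `Xl`
  have hinj' : Function.Injective (phK phi (co phi i0)) := by
    intro x y hxy
    exact Subtype.ext (hD.inj hxy)
  have hres : ∀ x ∈ supp (res (Ker (co phi i0)) D), (x : L) ∈ supp D := fun x hx => hx
  have hb0 : b ≠ 0 := by
    intro h2
    rw [h2, Submodule.coe_zero, map_zero] at hbj
    exact zero_ne_one hbj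
  obtain ⟨-, -, w3, w4, w5⟩ := hV ℤ P (Ker (co phi i0)) (phK phi (co phi i0))
    (res (Ker (co phi i0)) D) b e hinj' (fun x hx => hD.bin _ (hres x hx))
    (by
      intro p
      change phi (b : L) p = 0 ∨ phi (b : L) p = 1
      rw [hbAB]; exact bin_sST hD be A B p) hb0
  have hbin : Bin phi (b : L) := by rw [hbAB]; exact bin_sST hD be A B
  have hX3 : ∀ (A' : Finset (Fin 3)) (B' : Finset (Fin s)), i ∉ B' →
      (∀ p, phi (sST S T A' B') p = 0 ∨ phi (b : L) p = 0) →
      ∀ x : K', ((x : Ker (co phi i0)) : L) = sST S T A' B' →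
      (r * O2).coeff x = D.coeff (sST S T A' B') + (e : RO ℤ) * D.coeff (sST S T A' B' + b) := by
    intro A' B' _ hp x hx
    rw [← hXr, Xl, w5 jj hj1 x, w3 _ (by
      intro p
      change phi ((x : Ker (co phi i0)) : L) p = 0 ∨ phi (b : L) p = 0
      rw [hx]; exact hp p), res_coeff, res_coeff, Submodule.coe_add, hx]
  have hX4 : ∀ (A' : Finset (Fin 3)) (B' : Finset (Fin s)), i ∉ B' →
      (∃ p, phi (sST S T A' B') p = 1 ∧ phi (b : L) p = 1) →
      phi (sST S T A' B') jj = 0 →
      ∀ x : K', ((x : Ker (co phi i0)) : L) = sST S T A' B' →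
      (r * O2).coeff x = D.coeff (sST S T A' B') := by
    intro A' B' _ hp hjj x hx
    rw [← hXr, Xl, w5 jj hj1 x, w4 _ (by
      intro p
      change phi ((x : Ker (co phi i0)) : L) p = 0 ∨ phi ((x : Ker (co phi i0)) : L) p = 1
      rw [hx]; exact bin_sST hD be A' B' p) (by
      obtain ⟨p, h1, h2⟩ := hp
      refine ⟨p, ?_, h2⟩
      change phi ((x : Ker (co phi i0)) : L) p = 1
      rw [hx]; exact h1) ⟨jj, by
      change phi ((x : Ker (co phi i0)) : L) jj = 0
      rw [hx]; exact hjj, hbj⟩, res_coeff, hx]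
  have mk : ∀ (A' : Finset (Fin 3)) (B' : Finset (Fin s)), i ∉ B' → phi (sST S T A' B') jj = 0 →
      ∃ x : K', ((x : Ker (co phi i0)) : L) = sST S T A' B' := by
    intro A' B' h1 h2
    exact ⟨⟨⟨sST S T A' B', hk0 A' B' h1⟩, h2⟩, rfl⟩
  have hOO : ∀ p, phi (T i) p = 0 → p ∈ OO phi (T i) := fun p hp => by
    unfold OO; exact Finset.mem_filter.2 ⟨Finset.mem_univ _, hp⟩
  rcases hA with hA | hA
  · -- no `S k` in `b`
    left
    subst hA
    obtain ⟨k0, hk0B, hk0j⟩ : ∃ k ∈ B, phi (T k) jj = 1 := by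
      have h1 := ph_cases hD be ∅ B jj
      rw [← hbAB, hbj] at h1
      rcases h1 with h1 | ⟨-, ⟨k, h1, -⟩ | h1⟩
      · exact absurd h1 one_ne_zero
      · exact absurd h1 (Finset.notMem_empty k)
      · exact h1
    obtain ⟨p0, hp0⟩ := port hD (binS hD be 0) (be.rS 0).2.1
    obtain ⟨p1, hp1⟩ := port hD (binS hD be 1) (be.rS 1).2.1
    have hO0' : ∀ x ∈ supp O, phi (x : L) p0 = phi (x : L) p1 := by
      intro x hx
      have h1 := hOk ((co phi p0 - co phi p1).comp (incl (Ker (co phi i0)))) (by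
        intro y hy
        obtain ⟨A', B', -, hy1, hA'⟩ := hVs y hy
        change phi (y : L) p0 - phi (y : L) p1 = 0
        rw [hy1, phS be hp0, phS be hp1]
        rcases hA' with rfl | rfl <;> simp) x hx
      change phi (x : L) p0 - phi (x : L) p1 = 0 at h1
      omega
    have hTi : ∀ κ p, phi (S κ) p = 1 → phi (T i) p = 0 := by
      intro κ p hp
      rcases be.dST κ i p with h1 | h1
      · rw [hp] at h1; exact absurd h1 one_ne_zero
      · exact h1
    have hr : ∀ κ p, phi (S κ) p = 1 → ∀ y ∈ supp r, phi ((y : Ker (co phi i0)) : L) p = 0 := by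
      intro κ p hp y hy
      refine hrp y hy p (hOO p (hTi κ p hp)) ?_
      rw [hbAB, phS be hp, if_neg (Finset.notMem_empty κ)]
    have hzero : ∀ x : K', phi ((x : Ker (co phi i0)) : L) p0 ≠ phi ((x : Ker (co phi i0)) : L) p1 →
        (r * O2).coeff x = 0 := by
      intro x hx
      by_contra h1
      obtain ⟨y, hy, z, hz, hyz⟩ := supp_mul r O2 x h1
      apply hx
      rw [← hyz, Submodule.coe_add, Submodule.coe_add, map_add, Pi.add_apply, Pi.add_apply,
        hr 0 p0 hp0 y hy, hr 1 p1 hp1 y hy, hO0' _ (hO2s z hz)]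
    have hB : B = {k0} := by
      by_contra hne
      obtain ⟨k1, hk1, hk10⟩ : ∃ k1 ∈ B, k1 ≠ k0 := by
        by_contra hcon
        push Not at hcon
        exact hne (Finset.eq_singleton_iff_unique_mem.2 ⟨hk0B, hcon⟩)
      have hik1 : i ∉ ({k1} : Finset (Fin s)) := by
        rw [Finset.mem_singleton]
        rintro rfl
        exact hiB hk1
      have hj0 : phi (sST S T {0} {k1}) jj = 0 := by
        rw [phT be hk0j, if_neg]
        rw [Finset.mem_singleton]
        exact fun h1 => hk10 h1.symm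
      obtain ⟨x, hx⟩ := mk {0} {k1} hik1 hj0
      obtain ⟨p, hp⟩ := port hD (binT hD be k1) (be.rT k1).2.1
      have h1 := hX4 {0} {k1} hik1 ⟨p, by rw [phT be hp, if_pos (Finset.mem_singleton_self k1)], by
        rw [hbAB, phT be hp, if_pos hk1]⟩ hj0 x hx
      rw [hzero x (by
        rw [hx, phS be hp0, phS be hp1]
        simp)] at h1
      exact nz be {k1} (Finset.singleton_ne_empty 0) (by decide) h1.symm
    subst hB
    have hbk : (b : L) = T k0 := by rw [hbAB, sST_empty]
    have hki : k0 ≠ i := fun h1 => hiB (Finset.mem_singleton.2 h1.symm)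
    refine ⟨k0, hki, hbk, ?_⟩
    have hj0 : phi (sST S T {0} ∅) jj = 0 := by
      rw [phT be hk0j, if_neg (Finset.notMem_empty k0)]
    obtain ⟨x, hx⟩ := mk {0} ∅ (Finset.notMem_empty i) hj0
    have h1 := hX3 {0} ∅ (Finset.notMem_empty i) (by
      intro p
      rw [hbk]
      exact dis hD be {0} (Finset.notMem_empty k0) p) x hx
    rw [hzero x (by
        rw [hx, phS be hp0, phS be hp1]
        simp), hbk, sST_insert {0} (Finset.notMem_empty k0)] at h1
    have h2 := flip be (Finset.singleton_ne_empty (0 : Fin 3)) (by decide)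
      (Finset.notMem_empty k0)
    have h3 := nz be (insert k0 ∅) (Finset.singleton_ne_empty (0 : Fin 3)) (by decide)
    apply Units.ext
    apply sub_eq_zero.1
    apply (mul_eq_zero.1 (_ : ((e : RO ℤ) - (lam k0 : RO ℤ)) *
      D.coeff (sST S T {0} (insert k0 ∅)) = 0)).resolve_right h3
    linear_combination -h1 - h2
  · -- all `S k` in `b`
    right
    subst hA
    refine ⟨B, hiB, ?_, ?_⟩
    · rw [hbAB]
      unfold sST
      rw [Fin.sum_univ_three]
    intro k hki hkB
    have hik : i ∉ ({k} : Finset (Fin s)) := by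
      rw [Finset.mem_singleton]
      exact fun h1 => hki h1.symm
    have hkj : phi (T k) jj = 0 := by
      rcases binT hD be k jj with h1 | h1
      · exact h1
      · rw [hbAB, phT be h1, if_neg hkB] at hbj
        exact absurd hbj zero_ne_one
    obtain ⟨κ, hκ⟩ : ∃ κ : Fin 3, phi (S κ) jj = 0 := by
      rcases be.dSS 0 1 (by decide) jj with h1 | h1
      · exact ⟨0, h1⟩
      · exact ⟨1, h1⟩
    have hA1 : ({κ} : Finset (Fin 3)) ≠ ∅ := Finset.singleton_ne_empty κ
    have hA2 : ({κ} : Finset (Fin 3)) ≠ Finset.univ := by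
      intro h1
      have := congrArg Finset.card h1
      rw [Finset.card_singleton, Finset.card_univ, Fintype.card_fin] at this
      omega
    -- ports of the other factors
    have hbT : ∀ p, phi (b : L) p = 1 → phi (T i) p = 0 := by
      intro p hp
      rcases dis hD be Finset.univ hiB p with h1 | h1
      · rw [← hbAB, hp] at h1; exact absurd h1 one_ne_zero
      · exact h1
    have hOb : ∀ p, phi (b : L) p = 1 → ∀ x ∈ supp O, phi (x : L) p = 0 := by
      intro p hp
      have h1 := (hW ℤ P (Ker (co phi i0)) (phK phi (co phi i0)) (II phi (T i) i0) (OO phi (T i))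
        (cst c * G l) O (by
          intro x hx
          rw [← hVO'] at hx
          obtain ⟨A', B', hiB', hx1, -⟩ := hVs x hx
          refine ⟨?_, Or.inl ?_, ?_⟩
          · intro p _
            change phi (x : L) p = 0 ∨ phi (x : L) p = 1
            rw [hx1]; exact bin_sST hD be A' B' p
          · intro p _
            change phi (x : L) p = 0 ∨ phi (x : L) p = 1
            rw [hx1]; exact bin_sST hD be A' B' p
          · intro p _ hp2
            change phi (x : L) p = 0
            rw [hx1]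
            rcases dis hD be A' hiB' p with h1 | h1
            · exact h1
            · exact absurd (hOO p h1) hp2) hcG0 hO0).2 p (hOO p (hbT p hp))
      rcases h1 with h1 | h1
      · exact absurd ((h1 b hcGb).symm.trans hp) zero_ne_one
      · exact h1
    -- ports of `T i` in `r`
    have hrT : ∀ p, phi (T i) p = 1 → ∀ y ∈ supp r, phi ((y : Ker (co phi i0)) : L) p = 0 := by
      intro p hp y hy
      have hX : ∀ x ∈ supp (r * O2), phi ((x : Ker (co phi i0)) : L) p = 0 := by
        intro x hx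
        rw [← hXr, Xl] at hx
        obtain ⟨y', hy', rfl⟩ := supp_cl _ _ _ _ _ x hx
        obtain ⟨A', B', hAB'⟩ := be.sup _ (hres y' hy')
        have h1 : phi (y' : L) i0 = 0 := y'.2
        have h2 : i ∉ B' := by
          intro h3
          rw [hAB', phT be hi0, if_pos h3] at h1
          exact one_ne_zero h1
        have h3 : phi (y' : L) p = 0 := by rw [hAB', phT be hp, if_neg h2]
        have h4 : phi (b : L) p = 0 := by rw [hbAB, phT be hp, if_neg hiB]
        rw [prj_coe, Submodule.coe_sub, Submodule.coe_smul, map_sub, map_zsmul, Pi.sub_apply,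
          Pi.smul_apply, h3, h4, smul_zero, sub_zero]
      have h1 := hM ℤ _ r O2 hr0 hO20 (((co phi p).comp (incl (Ker (co phi i0)))).comp (incl K')) 0
        (fun x hx => (hX x hx).ge) y hy
      have h2 := hM ℤ _ r O2 hr0 hO20 (-(((co phi p).comp (incl (Ker (co phi i0)))).comp (incl K'))) 0
        (fun x hx => by
          rw [AddMonoidHom.neg_apply]
          have := hX x hx
          change 0 ≤ -(phi ((x : Ker (co phi i0)) : L) p)
          rw [this]; norm_num) y hy
      rw [AddMonoidHom.neg_apply] at h2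
      change 0 ≤ phi ((y : Ker (co phi i0)) : L) p at h1
      change 0 ≤ -(phi ((y : Ker (co phi i0)) : L) p) at h2
      omega
    -- the product
    obtain ⟨xk, hxk⟩ := mk {κ} ∅ (Finset.notMem_empty i) (by rw [sST_one]; exact hκ)
    rw [sST_one] at hxk
    have hprod : ∀ y0 : K', (∀ p, phi (b : L) p = 1 → phi ((y0 : Ker (co phi i0)) : L) p = 0) →
        (r * O2).coeff (xk + y0) = r.coeff xk * O.coeff (y0 : Ker (co phi i0)) := by
      intro y0 hy0
      rw [← hO2c]
      apply uniq
      intro y hy z hz hyz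
      have hyx : y = xk := by
        apply Subtype.ext
        apply Subtype.ext
        apply hD.inj
        funext p
        rw [hxk]
        have hsum : phi ((y : Ker (co phi i0)) : L) p + phi ((z : Ker (co phi i0)) : L) p =
            phi (S κ) p + phi ((y0 : Ker (co phi i0)) : L) p := by
          have h1 := congrArg (fun x : K' => phi ((x : Ker (co phi i0)) : L) p) hyz
          simp only [Submodule.coe_add, map_add, Pi.add_apply, hxk] at h1
          exact h1
        rcases hbin p with hb1 | hb1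
        · have h1 : phi (S κ) p = 0 := by
            rcases binS hD be κ p with h2 | h2
            · exact h2
            · rw [hbAB, phS be h2, if_pos (Finset.mem_univ κ)] at hb1
              exact absurd hb1 one_ne_zero
          rw [h1]
          rcases binT hD be i p with h2 | h2
          · exact hrp y hy p (hOO p h2) hb1
          · exact hrT p h2 y hy
        · rw [hOb p hb1 _ (hO2s z hz), hy0 p hb1, add_zero, add_zero] at hsum
          exact hsum
      subst hyx
      exact ⟨rfl, add_left_cancel hyz⟩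
    obtain ⟨pκ, hpκ⟩ := port hD (binS hD be κ) (be.rS κ).2.1
    have hbpκ : phi (b : L) pκ = 1 := by rw [hbAB, phS be hpκ, if_pos (Finset.mem_univ κ)]
    -- the exponent `S κ`
    have e1 := hprod 0 (fun p _ => by
      rw [Submodule.coe_zero, Submodule.coe_zero, map_zero]; rfl)
    rw [add_zero, hX4 {κ} ∅ (Finset.notMem_empty i) ⟨pκ, by
      rw [phS be hpκ, if_pos (Finset.mem_singleton_self κ)], hbpκ⟩ (by rw [sST_one]; exact hκ) xk
      (by rw [hxk, sST_one])] at e1
    -- the exponent `S κ + T k`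
    obtain ⟨yk, hyk⟩ := mk ∅ {k} hik (by rw [sST_empty]; exact hkj)
    rw [sST_empty] at hyk
    have hjk : phi (sST S T {κ} {k}) jj = 0 := by
      rw [phi_sST, Finset.sum_singleton, Finset.sum_singleton, hκ, hkj, add_zero]
    have hxy : (((xk + yk : K') : Ker (co phi i0)) : L) = sST S T {κ} {k} := by
      rw [Submodule.coe_add, Submodule.coe_add, hxk, hyk]
      unfold sST
      rw [Finset.sum_singleton, Finset.sum_singleton]
    have e2 := hprod yk (fun p hp => by
      rw [hyk]
      rcases binT hD be k p with h1 | h1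
      · exact h1
      · rw [hbAB, phT be h1, if_neg hkB] at hp
        exact absurd hp zero_ne_one)
    rw [hX4 {κ} {k} hik ⟨pκ, by
      rw [phS be hpκ, if_pos (Finset.mem_singleton_self κ)], hbpκ⟩ hjk (xk + yk) hxy] at e2
    have hfl := flip be hA1 hA2 (Finset.notMem_empty k)
    rw [insert_empty_eq, e1, e2] at hfl
    have hrk : r.coeff xk ≠ 0 := by
      intro h1
      rw [h1, zero_mul] at e1
      exact nz be ∅ hA1 hA2 e1
    have hOT : O.coeff ((0 : K') : Ker (co phi i0)) +
        (lam k : RO ℤ) * O.coeff (yk : Ker (co phi i0)) = 0 := by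
      apply (mul_eq_zero.1 (_ : r.coeff xk * (O.coeff ((0 : K') : Ker (co phi i0)) +
        (lam k : RO ℤ) * O.coeff (yk : Ker (co phi i0))) = 0)).resolve_left hrk
      linear_combination hfl
    have c0 := hcoef 0
    have c1 := hcoef (yk : Ker (co phi i0))
    rw [hneg 0 (by rw [Submodule.coe_zero, map_zero]; rfl),
      hVc 0 ∅ ∅ (Finset.notMem_empty i) (by rw [sST_zero]; rfl), insert_empty_eq, sST_zero,
      sST_empty] at c0
    rw [hneg _ (by rw [hyk]; exact hkj), hVc _ ∅ {k} hik (by rw [hyk, sST_empty]),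
      ← sST_insert ∅ hik, sST_empty] at c1
    unfold bmm
    rw [add_comm (T i) (T k)]
    rw [Submodule.coe_zero] at hOT
    linear_combination c0 + (lam k : RO ℤ) * c1 + c * u * hOT

end Pool.Agent.B5.BE.H24
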